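import Mathlib

/-!
For every `C > 0` the recurrence `x_{n+1} = x_n / (C x_{n-1} + x_{n-2})` has unbounded positive
solutions.
-/

namespace Pool.Agent.Results.MP_2553b2_an.Unbounded

/-- The invariant, in logarithmic coordinates. -/
def Inv (X : ℕ → ℝ) (K : ℝ) (n : ℕ) : Prop :=
  1000 * K ≤ X (n + 1) - X n ∧ 1000 * K ≤ X (n + 1) - X (n + 2) ∧
    1000 * K ≤ 2 * X (n + 2) - X (n + 1)

lemma step {X : ℕ → ℝ} {K : ℝ} (hK : 0 < K)
    (hX : ∀ n, |X (n + 3) - (X (n + 2) - max (X (n + 1)) (X n))| ≤ K) {n : ℕ}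
    (h : Inv X K n) : Inv X K (n + 15) ∧ X (n + 1) + K ≤ X (n + 15 + 1) := by
  obtain ⟨h0, h1, h2⟩ := h
  obtain ⟨a3, b3⟩ := abs_le.1 (hX n)
  obtain ⟨a4, b4⟩ := abs_le.1 (hX (n + 1))
  rw [show n + 1 + 3 = n + 4 by ring, show n + 1 + 2 = n + 3 by ring,
    show n + 1 + 1 = n + 2 by ring] at a4 b4
  obtain ⟨a5, b5⟩ := abs_le.1 (hX (n + 2))
  rw [show n + 2 + 3 = n + 5 by ring, show n + 2 + 2 = n + 4 by ring,
    show n + 2 + 1 = n + 3 by ring] at a5 b5
  obtain ⟨a6, b6⟩ := abs_le.1 (hX (n + 3))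
  rw [show n + 3 + 3 = n + 6 by ring, show n + 3 + 2 = n + 5 by ring,
    show n + 3 + 1 = n + 4 by ring] at a6 b6
  obtain ⟨a7, b7⟩ := abs_le.1 (hX (n + 4))
  rw [show n + 4 + 3 = n + 7 by ring, show n + 4 + 2 = n + 6 by ring,
    show n + 4 + 1 = n + 5 by ring] at a7 b7
  obtain ⟨a8, b8⟩ := abs_le.1 (hX (n + 5))
  rw [show n + 5 + 3 = n + 8 by ring, show n + 5 + 2 = n + 7 by ring,
    show n + 5 + 1 = n + 6 by ring] at a8 b8
  obtain ⟨a9, b9⟩ := abs_le.1 (hX (n + 6))
  rw [show n + 6 + 3 = n + 9 by ring, show n + 6 + 2 = n + 8 by ring,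
    show n + 6 + 1 = n + 7 by ring] at a9 b9
  obtain ⟨a10, b10⟩ := abs_le.1 (hX (n + 7))
  rw [show n + 7 + 3 = n + 10 by ring, show n + 7 + 2 = n + 9 by ring,
    show n + 7 + 1 = n + 8 by ring] at a10 b10
  obtain ⟨a11, b11⟩ := abs_le.1 (hX (n + 8))
  rw [show n + 8 + 3 = n + 11 by ring, show n + 8 + 2 = n + 10 by ring,
    show n + 8 + 1 = n + 9 by ring] at a11 b11
  obtain ⟨a12, b12⟩ := abs_le.1 (hX (n + 9))
  rw [show n + 9 + 3 = n + 12 by ring, show n + 9 + 2 = n + 11 by ring,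
    show n + 9 + 1 = n + 10 by ring] at a12 b12
  obtain ⟨a13, b13⟩ := abs_le.1 (hX (n + 10))
  rw [show n + 10 + 3 = n + 13 by ring, show n + 10 + 2 = n + 12 by ring,
    show n + 10 + 1 = n + 11 by ring] at a13 b13
  obtain ⟨a14, b14⟩ := abs_le.1 (hX (n + 11))
  rw [show n + 11 + 3 = n + 14 by ring, show n + 11 + 2 = n + 13 by ring,
    show n + 11 + 1 = n + 12 by ring] at a14 b14
  obtain ⟨a15, b15⟩ := abs_le.1 (hX (n + 12))
  rw [show n + 12 + 3 = n + 15 by ring, show n + 12 + 2 = n + 14 by ring,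
    show n + 12 + 1 = n + 13 by ring] at a15 b15
  obtain ⟨a16, b16⟩ := abs_le.1 (hX (n + 13))
  rw [show n + 13 + 3 = n + 16 by ring, show n + 13 + 2 = n + 15 by ring,
    show n + 13 + 1 = n + 14 by ring] at a16 b16
  obtain ⟨a17, b17⟩ := abs_le.1 (hX (n + 14))
  rw [show n + 14 + 3 = n + 17 by ring, show n + 14 + 2 = n + 16 by ring,
    show n + 14 + 1 = n + 15 by ring] at a17 b17
  rw [max_eq_left (show X n ≤ X (n + 1) by linarith)] at a3 b3
  rw [max_eq_right (show X (n + 2) ≤ X (n + 1) by linarith)] at a4 b4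
  rw [max_eq_right (show X (n + 3) ≤ X (n + 2) by linarith)] at a5 b5
  rw [max_eq_right (show X (n + 4) ≤ X (n + 3) by linarith)] at a6 b6
  rw [max_eq_right (show X (n + 5) ≤ X (n + 4) by linarith)] at a7 b7
  rw [max_eq_left (show X (n + 5) ≤ X (n + 6) by linarith)] at a8 b8
  rw [max_eq_left (show X (n + 6) ≤ X (n + 7) by linarith)] at a9 b9
  rw [max_eq_left (show X (n + 7) ≤ X (n + 8) by linarith)] at a10 b10
  rw [max_eq_left (show X (n + 8) ≤ X (n + 9) by linarith)] at a11 b11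
  rw [max_eq_right (show X (n + 10) ≤ X (n + 9) by linarith)] at a12 b12
  rw [max_eq_right (show X (n + 11) ≤ X (n + 10) by linarith)] at a13 b13
  rw [max_eq_right (show X (n + 12) ≤ X (n + 11) by linarith)] at a14 b14
  rw [max_eq_right (show X (n + 13) ≤ X (n + 12) by linarith)] at a15 b15
  rw [max_eq_left (show X (n + 13) ≤ X (n + 14) by linarith)] at a16 b16
  rw [max_eq_left (show X (n + 14) ≤ X (n + 15) by linarith)] at a17 b17
  unfold Inv
  rw [show n + 15 + 1 = n + 16 by ring, show n + 15 + 2 = n + 17 by ring]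
  refine ⟨⟨?_, ?_, ?_⟩, ?_⟩
  · linarith
  · linarith
  · linarith
  · linarith

/-- Large initial data give unbounded solutions. -/
lemma unbounded_of_inv {X : ℕ → ℝ} {K : ℝ} (hK : 0 < K)
    (hX : ∀ n, |X (n + 3) - (X (n + 2) - max (X (n + 1)) (X n))| ≤ K) (h : Inv X K 0) (C : ℝ) :
    ∃ n, C < X n := by
  have key : ∀ j : ℕ, ∃ n, Inv X K n ∧ j * K ≤ X (n + 1) := by
    intro j
    induction j with
    | zero =>
      refine ⟨0, h, ?_⟩
      obtain ⟨h0, h1, h2⟩ := h
      simp only [Nat.cast_zero, zero_mul]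
      linarith
    | succ j ih =>
      obtain ⟨n, hn, hS⟩ := ih
      obtain ⟨hm, hS'⟩ := step hK hX hn
      refine ⟨n + 15, hm, ?_⟩
      push_cast
      linarith
  obtain ⟨j, hj⟩ := exists_nat_gt (C / K)
  rw [div_lt_iff₀ hK] at hj
  obtain ⟨n, hn, hS⟩ := key j
  exact ⟨n + 1, by linarith⟩

/-- The elementary estimate for the logarithm. -/
lemma log_est {C : ℝ} (hC : 0 < C) (s t : ℝ) :
    |Real.log (C * Real.exp s + Real.exp t) - max s t| ≤ |Real.log C| + 1 := by
  have hexs := Real.exp_pos s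
  have hext := Real.exp_pos t
  have hCs : 0 < C * Real.exp s := by positivity
  have h1 : Real.log C + s ≤ Real.log (C * Real.exp s + Real.exp t) := by
    calc Real.log C + s = Real.log (C * Real.exp s) := by
          rw [Real.log_mul hC.ne' hexs.ne', Real.log_exp]
      _ ≤ _ := Real.log_le_log hCs (by linarith)
  have h2 : t ≤ Real.log (C * Real.exp s + Real.exp t) := by
    calc t = Real.log (Real.exp t) := (Real.log_exp t).symm
      _ ≤ _ := Real.log_le_log hext (by linarith)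
  have h3 := neg_abs_le (Real.log C)
  have h3' := le_abs_self (Real.log C)
  have h30 := abs_nonneg (Real.log C)
  have h4 : Real.log (C * Real.exp s + Real.exp t) ≤ max s t + (|Real.log C| + 1) := by
    rw [Real.log_le_iff_le_exp (by positivity), Real.exp_add, Real.exp_add]
    have g1 : Real.exp s ≤ Real.exp (max s t) := Real.exp_le_exp.2 (le_max_left _ _)
    have g2 : Real.exp t ≤ Real.exp (max s t) := Real.exp_le_exp.2 (le_max_right _ _)
    have g3 : C ≤ Real.exp |Real.log C| := by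
      calc C = Real.exp (Real.log C) := (Real.exp_log hC).symm
        _ ≤ _ := Real.exp_le_exp.2 h3'
    have g4 : (1 : ℝ) ≤ Real.exp |Real.log C| := Real.one_le_exp (abs_nonneg _)
    have g5 : (2 : ℝ) ≤ Real.exp 1 := by
      have := Real.add_one_le_exp (1 : ℝ)
      linarith
    have hM := Real.exp_pos (max s t)
    have hL := Real.exp_pos |Real.log C|
    calc C * Real.exp s + Real.exp t ≤ Real.exp |Real.log C| * Real.exp (max s t) +
          Real.exp |Real.log C| * Real.exp (max s t) := by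
          apply add_le_add
          · exact mul_le_mul g3 g1 hexs.le hL.le
          · calc Real.exp t = 1 * Real.exp t := (one_mul _).symm
              _ ≤ _ := mul_le_mul g4 g2 hext.le hL.le
      _ = Real.exp (max s t) * (Real.exp |Real.log C| * 2) := by ring
      _ ≤ Real.exp (max s t) * (Real.exp |Real.log C| * Real.exp 1) := by gcongr
  rw [abs_le]
  constructor
  · rcases max_cases s t with ⟨hm, _⟩ | ⟨hm, _⟩
    · rw [hm]
      linarith
    · rw [hm]
      linarith
  · linarith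

/-- For every `C > 0` there is an unbounded solution with positive initial values. -/
theorem result (C : ℝ) (hC : 0 < C) :
    ∃ x : ℕ → ℝ, (∀ n, 0 < x n) ∧ (∀ n, x (n + 3) = x (n + 2) / (C * x (n + 1) + x n)) ∧
      ∀ M : ℝ, ∃ n, M < x n := by
  set K := |Real.log C| + 1 with hKdef
  have hK : 0 < K := by positivity
  have main : ∀ x : ℕ → ℝ, (∀ n, 0 < x n) →
      (∀ n, x (n + 3) = x (n + 2) / (C * x (n + 1) + x n)) →
      x 0 = 1 → x 1 = Real.exp (9000 * K) → x 2 = Real.exp (8000 * K) →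
      ∀ M : ℝ, ∃ n, M < x n := by
    intro x hpos hrec h0 h1 h2 M
    have hX : ∀ n, |Real.log (x (n + 3)) -
        (Real.log (x (n + 2)) - max (Real.log (x (n + 1))) (Real.log (x n)))| ≤ K := by
      intro n
      have hp := hpos (n + 1)
      have hp0 := hpos n
      rw [hrec n, Real.log_div (hpos (n + 2)).ne' (by positivity)]
      have := log_est hC (Real.log (x (n + 1))) (Real.log (x n))
      rw [Real.exp_log hp, Real.exp_log hp0, ← hKdef, abs_sub_comm] at this
      convert this using 2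
      ring
    have hinv : Inv (fun n => Real.log (x n)) K 0 := by
      have e0 : Real.log (x 0) = 0 := by rw [h0, Real.log_one]
      have e1 : Real.log (x 1) = 9000 * K := by rw [h1, Real.log_exp]
      have e2 : Real.log (x 2) = 8000 * K := by rw [h2, Real.log_exp]
      refine ⟨?_, ?_, ?_⟩
      · show _ ≤ Real.log (x 1) - Real.log (x 0)
        linarith
      · show _ ≤ Real.log (x 1) - Real.log (x 2)
        linarith
      · show _ ≤ 2 * Real.log (x 2) - Real.log (x 1)
        linarith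
    obtain ⟨n, hn⟩ := unbounded_of_inv hK hX hinv M
    refine ⟨n, ?_⟩
    have h3 : Real.log (x n) ≤ x n - 1 := Real.log_le_sub_one_of_pos (hpos n)
    linarith
  set f : ℕ → ℝ × ℝ × ℝ := fun n =>
    Nat.rec ((1, Real.exp (9000 * K), Real.exp (8000 * K)) : ℝ × ℝ × ℝ)
      (fun _ s => (s.2.1, s.2.2, s.2.2 / (C * s.2.1 + s.1))) n with hf
  have hfs : ∀ n, f (n + 1) =
      ((f n).2.1, (f n).2.2, (f n).2.2 / (C * (f n).2.1 + (f n).1)) := fun n => rfl
  have hpos : ∀ n, 0 < (f n).1 ∧ 0 < (f n).2.1 ∧ 0 < (f n).2.2 := by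
    intro n
    induction n with
    | zero => exact ⟨one_pos, Real.exp_pos _, Real.exp_pos _⟩
    | succ n ih =>
      rw [hfs]
      obtain ⟨i1, i2, i3⟩ := ih
      exact ⟨i2, i3, by positivity⟩
  have hrec : ∀ n, (f (n + 3)).1 = (f (n + 2)).1 / (C * (f (n + 1)).1 + (f n).1) := by
    intro n
    rw [hfs (n + 2), hfs (n + 1), hfs n]
  exact ⟨fun n => (f n).1, fun n => (hpos n).1, hrec,
    main _ (fun n => (hpos n).1) hrec rfl rfl rfl⟩

end Pool.Agent.Results.MP_2553b2_an.Unbounded
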